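import Pool.Agent.Y149.TL.Shift
import Pool.Agent.Y149.PK.Fin

/-! The mean square for one curve and an arbitrary pure system. -/

set_option autoImplicit false

open Finset Filter Topology Complex Polynomial

namespace Pool.Agent.Y149.TL

open Pool.Agent.H341R2 (E lam lam_tendsto)
open Pool.Agent.Y149.CM (LFun sum_product)
open Pool.Agent.Y149.PK (tens frobE IsEllipticFamily ell_choose frobE_one sq_perturb tuples card_tup
  sum_tup_succ)
open Pool.Agent.Y722.EP (IsNewformOf NotIsogenous finite_dvd)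
open Pool.Agent.Y722.RS (S2 rc tt tt_le)

theorem tens_pure {w w' : ℤ} {N N' : ℕ} {p : Nat.Primes} {s t : Multiset ℂ} (hs : Pure w N p s)
    (ht : Pure w' N' p t) : Pure (w + w') (N * N') p (tens s t) := by
  have hp0 : (0 : ℝ) < (p : ℕ) := by exact_mod_cast p.2.pos
  unfold tens
  refine ⟨fun z hz => ?_, ?_⟩
  · obtain ⟨x, hx, rfl⟩ := Multiset.mem_map.1 hz
    obtain ⟨h1, h2⟩ := Multiset.mem_product.1 hx
    rw [norm_mul, hs.1 _ h1, ht.1 _ h2, ← Real.rpow_add hp0]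
    congr 1
    push_cast
    ring
  · rw [Multiset.card_map, Multiset.card_product]
    exact Nat.mul_le_mul hs.2 ht.2

theorem tens_sum (s t : Multiset ℂ) : (tens s t).sum = s.sum * t.sum := by
  unfold tens
  exact sum_product s t

section
variable {Nf : ℕ} [NeZero Nf] {f : S2 Nf} {a b : ℤ}

theorem frobE_pure (hf : IsNewformOf f a b) (p : Nat.Primes)
    (h : ¬ ((p : ℕ) : ℤ) ∣ 2 * (4 * a ^ 3 + 27 * b ^ 2)) : Pure 1 2 p (frobE a b p 1) := by
  obtain ⟨u, v, h1, h2, h3, h4⟩ := frobE_one hf p h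
  have e : ((p : ℕ) : ℝ) ^ (((1 : ℤ) : ℝ) / 2) = Real.sqrt (p : ℕ) := by
    rw [Real.sqrt_eq_rpow]
    norm_num
  refine ⟨fun z hz => ?_, ?_⟩
  · rw [e]
    rw [h1] at hz
    simp only [Multiset.insert_eq_cons, Multiset.mem_cons, Multiset.mem_singleton] at hz
    rcases hz with rfl | rfl
    · exact h3
    · exact h4
  · rw [h1]
    simp

theorem frobE_sum (hf : IsNewformOf f a b) (p : Nat.Primes)
    (h : ¬ ((p : ℕ) : ℤ) ∣ 2 * (4 * a ^ 3 + 27 * b ^ 2)) :
    (frobE a b p 1).sum = ((rc f p : ℝ) : ℂ) := by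
  obtain ⟨u, v, h1, h2, h3, h4⟩ := frobE_one hf p h
  rw [h1]
  simp only [Multiset.insert_eq_cons, Multiset.sum_cons, Multiset.sum_singleton]
  exact h2

end

theorem good_primes {a b : ℤ} (hΔ : 4 * a ^ 3 + 27 * b ^ 2 ≠ 0) :
    ∀ᶠ p : Nat.Primes in cofinite, ¬ ((p : ℕ) : ℤ) ∣ 2 * (4 * a ^ 3 + 27 * b ^ 2) := by
  rw [eventually_cofinite]
  simpa using finite_dvd (mul_ne_zero two_ne_zero hΔ)

section
variable {ι : Type} {M : ℕ} {a b : ι → ℤ} {w : ℤ} {N : ℕ} {δ : Nat.Primes → Multiset ℂ}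

/-- **One curve, the mean square.** -/
theorem one_mean (h : IsEllipticFamily M a b) (hδ : ∀ᶠ p in cofinite, Pure w N p (δ p))
    (S : Finset (ι × ℝ)) {B : ι × ℝ → Nat.Primes → ℂ[X]} (hB : ∀ x ∈ S,
      IsEuler (w + 1) (fun p => tens (δ p) (frobE (a x.1) (b x.1) p 1)) (B x))
    {η : ℝ} (hη : 0 < η) : ∀ᶠ ε : ℝ in 𝓝[>] 0,
      (∀ x ∈ S, LFun (B x) (edge (w + 1) x.2 + ε) ≠ 0) ∧
      ∑ x ∈ S, size (w + 1) (B x) x.2 ε ^ 2 ≤ 2 * M * (N : ℝ) ^ 2 + η := by
  classical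
  obtain ⟨Nf, hN, f, hf⟩ := ell_choose h
  have hfam := line_ell hf h.mult
  set T : ι → Nat.Primes → ℝ := fun i p => tt (f i) p with hT
  set Q : Nat.Primes → ℂ := mt w N δ with hQ
  have hlink : ∀ x ∈ S, (∀ᶠ ε : ℝ in 𝓝[>] 0, LFun (B x) (edge (w + 1) x.2 + ε) ≠ 0) ∧
      Tendsto (fun ε : ℝ => size (w + 1) (B x) x.2 ε - E ε (fun p => (Q p * wT T x p).re) / lam ε)
        (𝓝[>] 0) (𝓝 0) := by
    intro x hx
    have hg := good_primes (h.disc x.1)
    refine line_log (hB x hx) (N := N * 2) (hδ.and hg |>.mono fun p hp =>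
      tens_pure hp.1 (frobE_pure (hf x.1) p hp.2)) x.2 (C0 := N * 2) (fun p => ?_)
      (hδ.and hg |>.mono fun p hp => ?_)
    · refine (Complex.abs_re_le_norm _).trans ?_
      rw [norm_mul]
      exact mul_le_mul (norm_mt w N δ p) (hfam.norm_wT x p) (norm_nonneg _) (Nat.cast_nonneg _)
    · have hp0 : (0 : ℝ) < (p : ℕ) := by exact_mod_cast p.2.pos
      congr 1
      rw [tens_sum, frobE_sum (hf x.1) p hp.2]
      have e1 : Q p = (δ p).sum / ((((p : ℕ) : ℝ) ^ ((w : ℝ) / 2) : ℝ) : ℂ) := by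
        rw [hQ]
        unfold mt
        rw [if_pos hp.1]
      have e2 : ((((p : ℕ) : ℝ) ^ (((w + 1 : ℤ) : ℝ) / 2) : ℝ) : ℂ) =
          ((((p : ℕ) : ℝ) ^ ((w : ℝ) / 2) : ℝ) : ℂ) * ((Real.sqrt (p : ℕ) : ℝ) : ℂ) := by
        rw [← Complex.ofReal_mul, Real.sqrt_eq_rpow, ← Real.rpow_add hp0]
        congr 2
        push_cast
        ring
      have e3 : ((Real.sqrt (p : ℕ) : ℝ) : ℂ) ≠ 0 := by
        exact_mod_cast (Real.sqrt_pos.2 hp0).ne'
      have e4 := cpow_half w p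
      rw [e1, e2]
      unfold wT
      rw [hT]
      simp only [tt]
      rw [Complex.ofReal_div]
      field_simp
  have h1 : ∀ᶠ ε : ℝ in 𝓝[>] 0, ∀ x ∈ S, LFun (B x) (edge (w + 1) x.2 + ε) ≠ 0 := by
    rw [Filter.eventually_all_finset]
    exact fun x hx => (hlink x hx).1
  refine h1.and (sq_perturb S (fun x ε => E ε (fun p => (Q p * wT T x p).re) / lam ε)
    (fun x ε => size (w + 1) (B x) x.2 ε) _ (by positivity) (fun η' hη' => ?_)
    (fun x hx => (hlink x hx).2) hη)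
  have h2 := hfam.bes S Q (norm_mt w N δ) hη'
  refine h2.mono fun ε h3 => h3.trans (le_of_eq ?_)
  ring

/-- **One curve, the orders.** -/
theorem one_order (h : IsEllipticFamily M a b) (hδ : ∀ᶠ p in cofinite, Pure w N p (δ p))
    (S : Finset (ι × ℝ)) {B : ι × ℝ → Nat.Primes → ℂ[X]} (hB : ∀ x ∈ S,
      IsEuler (w + 1) (fun p => tens (δ p) (frobE (a x.1) (b x.1) p 1)) (B x))
    {r : ι × ℝ → ℤ} (hr : ∀ x ∈ S, HasOrder (w + 1) (B x) x.2 (r x)) :
    ∑ x ∈ S, r x ^ 2 ≤ 2 * M * (N : ℤ) ^ 2 := by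
  have h1 : ∑ x ∈ S, (r x : ℝ) ^ 2 ≤ 2 * M * (N : ℝ) ^ 2 := by
    refine le_of_forall_pos_le_add fun η hη => ?_
    have h2 : Tendsto (fun ε : ℝ => ∑ x ∈ S, size (w + 1) (B x) x.2 ε ^ 2) (𝓝[>] 0)
        (𝓝 (∑ x ∈ S, (-(r x) : ℝ) ^ 2)) :=
      tendsto_finsetSum _ fun x hx => (line_order (hr x hx)).pow 2
    simp only [neg_sq] at h2
    refine le_of_tendsto h2 ?_
    exact (one_mean h hδ S hB hη).mono fun ε h3 => h3.2
  exact_mod_cast h1

theorem tensL_pure {β : Multiset ℂ} {γ : ι → Multiset ℂ} {p : Nat.Primes} (hβ : Pure w N p β)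
    (l : List ι) (hγ : ∀ e ∈ l, Pure 1 2 p (γ e)) :
    Pure (w + l.length) (N * 2 ^ l.length) p (tensL β γ l) := by
  induction l with
  | nil => simpa [tensL] using hβ
  | cons e l ih =>
    have h1 := tens_pure (ih fun f hf => hγ f (by simp [hf])) (hγ e (by simp))
    rw [tensL, List.length_cons, pow_succ, ← mul_assoc]
    have e1 : w + ((l.length + 1 : ℕ) : ℤ) = w + l.length + 1 := by push_cast; ring
    rw [e1]
    exact h1

theorem tensL_eventually (h : IsEllipticFamily M a b) (hδ : ∀ᶠ p in cofinite, Pure w N p (δ p))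
    (l : List ι) : ∀ᶠ p : Nat.Primes in cofinite, Pure (w + l.length) (N * 2 ^ l.length) p
      (tensL (δ p) (fun i => frobE (a i) (b i) p 1) l) := by
  classical
  obtain ⟨Nf, hN, f, hf⟩ := ell_choose h
  have h1 : ∀ᶠ p : Nat.Primes in cofinite, ∀ e ∈ l.toFinset, Pure 1 2 p (frobE (a e) (b e) p 1) := by
    rw [Filter.eventually_all_finset]
    exact fun e _ => (good_primes (h.disc e)).mono fun p hp => frobE_pure (hf e) p hp
  exact (hδ.and h1).mono fun p hp => tensL_pure hp.1 l fun e he => hp.2 e (List.mem_toFinset.2 he)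

/-! ### Tuples -/

theorem Motive.Pure (H : Motive) : ∀ᶠ p in cofinite, Pure H.weight H.rank p (H.frob p) :=
  H.pure.mono fun _ h => ⟨h.1, h.2.le⟩

theorem cons_factor {H : Motive} {k : ℕ} {e : ι} {l : Fin k → ι} {B : Nat.Primes → ℂ[X]}
    (h : IsLFactor H a b (List.ofFn (Fin.cons e l : Fin (k + 1) → ι)) B) :
    IsEuler (H.weight + (List.ofFn l).length + 1) (fun p =>
      tens (tensL (H.frob p) (fun i => frobE (a i) (b i) p 1) (List.ofFn l))
        (frobE (a e) (b e) p 1)) B := by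
  unfold IsLFactor at h
  have e0 : List.ofFn (Fin.cons e l : Fin (k + 1) → ι) = e :: List.ofFn l := by
    rw [List.ofFn_succ]
    simp only [Fin.cons_zero, Fin.cons_succ]
  rw [e0] at h
  have e1 : H.weight + ((e :: List.ofFn l).length : ℤ) = H.weight + (List.ofFn l).length + 1 := by
    rw [List.length_cons]
    push_cast
    ring
  rw [e1] at h
  exact h

/-- **The mean square over the tuples.** -/
theorem tuple_mean (h : IsEllipticFamily M a b) (H : Motive) (k : ℕ) (J : Finset ι) (Θ : Finset ℝ)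
    {B : (Fin (k + 1) → ι) → Nat.Primes → ℂ[X]}
    (hB : ∀ l, (∀ i, l i ∈ J) → IsLFactor H a b (List.ofFn l) (B l)) {η : ℝ} (hη : 0 < η) :
    ∀ᶠ ε : ℝ in 𝓝[>] 0,
      (∀ l ∈ tuples J (k + 1), ∀ τ ∈ Θ, LFun (B l) (edge (H.weight + (k + 1 : ℕ)) τ + ε) ≠ 0) ∧
      ∑ l ∈ tuples J (k + 1), ∑ τ ∈ Θ, size (H.weight + (k + 1 : ℕ)) (B l) τ ε ^ 2 ≤
        2 * M * (H.rank : ℝ) ^ 2 * 4 ^ k * (J.card : ℝ) ^ k + η := by
  classical
  set c : ℝ := (J.card : ℝ) ^ k with hc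
  have hc0 : 0 ≤ c := by positivity
  have hw : H.weight + ((k + 1 : ℕ) : ℤ) = H.weight + (k : ℕ) + 1 := by push_cast; ring
  have h1 : ∀ᶠ ε : ℝ in 𝓝[>] 0, ∀ l ∈ tuples J k,
      (∀ x ∈ J ×ˢ Θ, LFun (B (Fin.cons x.1 l)) (edge (H.weight + (k : ℕ) + 1) x.2 + ε) ≠ 0) ∧
      ∑ x ∈ J ×ˢ Θ, size (H.weight + (k : ℕ) + 1) (B (Fin.cons x.1 l)) x.2 ε ^ 2 ≤
        2 * M * ((H.rank * 2 ^ k : ℕ) : ℝ) ^ 2 + η / (c + 1) := by
    rw [Filter.eventually_all_finset]
    intro l hl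
    have h2 := tensL_eventually (w := H.weight) (N := H.rank) h H.Pure (List.ofFn l)
    have h3 := one_mean h h2 (J ×ˢ Θ) (B := fun x => B (Fin.cons x.1 l)) (fun x hx => by
      refine cons_factor (hB _ fun i => ?_)
      refine Fin.cases ?_ (fun j => ?_) i
      · exact (Finset.mem_product.1 hx).1
      · exact Fintype.mem_piFinset.1 hl j) (η := η / (c + 1)) (by positivity)
    rw [List.length_ofFn] at h3
    exact h3
  filter_upwards [h1] with ε h2
  rw [hw]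
  refine ⟨fun l hl τ hτ => ?_, ?_⟩
  · have hl' := Fintype.mem_piFinset.1 hl
    have h3 := (h2 (Fin.tail l) (Fintype.mem_piFinset.2 fun i => hl' i.succ)).1 (l 0, τ)
      (Finset.mem_product.2 ⟨hl' 0, hτ⟩)
    rw [Fin.cons_self_tail] at h3
    exact h3
  · rw [sum_tup_succ, Finset.sum_product_right]
    have h3 : ∀ l ∈ tuples J k, ∑ e ∈ J, ∑ τ ∈ Θ,
        size (H.weight + (k : ℕ) + 1) (B (Fin.cons e l)) τ ε ^ 2 ≤
        2 * M * ((H.rank * 2 ^ k : ℕ) : ℝ) ^ 2 + η / (c + 1) := by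
      intro l hl
      refine le_trans (le_of_eq ?_) (h2 l hl).2
      rw [Finset.sum_product]
    refine (Finset.sum_le_card_nsmul _ _ _ h3).trans ?_
    rw [card_tup, nsmul_eq_mul]
    push_cast
    rw [← hc]
    have h4 : ((2 : ℝ) ^ k) ^ 2 = 4 ^ k := by
      rw [← pow_mul, mul_comm, pow_mul]
      norm_num
    rw [mul_pow, h4]
    have h5 : c * (η / (c + 1)) ≤ η := by
      rw [← mul_div_assoc, div_le_iff₀ (by positivity)]
      nlinarith
    nlinarith

/-- **The orders for the tuples.** -/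
theorem tuple_order (h : IsEllipticFamily M a b) (H : Motive) (k : ℕ) (J : Finset ι)
    {B : (Fin (k + 1) → ι) → Nat.Primes → ℂ[X]} (S : Finset ((Fin (k + 1) → ι) × ℝ))
    (hJ : ∀ x ∈ S, ∀ i, x.1 i ∈ J) (hB : ∀ x ∈ S, IsLFactor H a b (List.ofFn x.1) (B x.1))
    {r : (Fin (k + 1) → ι) × ℝ → ℤ}
    (hr : ∀ x ∈ S, HasOrder (H.weight + (k + 1 : ℕ)) (B x.1) x.2 (r x)) :
    ∑ x ∈ S, r x ^ 2 ≤ 2 * M * (H.rank : ℤ) ^ 2 * 4 ^ k * (J.card : ℤ) ^ k := by
  classical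
  have hw : H.weight + ((k + 1 : ℕ) : ℤ) = H.weight + (k : ℕ) + 1 := by push_cast; ring
  have h1 : ∀ x ∈ S, Fin.tail x.1 ∈ tuples J k := fun x hx =>
    Fintype.mem_piFinset.2 fun i => hJ x hx i.succ
  rw [← Finset.sum_fiberwise_of_maps_to h1]
  have h2 : ∀ l ∈ tuples J k, ∑ x ∈ S with Fin.tail x.1 = l, r x ^ 2 ≤
      2 * M * ((H.rank * 2 ^ k : ℕ) : ℤ) ^ 2 := by
    intro l hl
    have h3 := tensL_eventually (w := H.weight) (N := H.rank) h H.Pure (List.ofFn l)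
    set S' : Finset (ι × ℝ) := (S.filter fun x => Fin.tail x.1 = l).image
      fun x => (x.1 0, x.2) with hS'
    have hmem : ∀ y ∈ S', ((Fin.cons y.1 l : Fin (k + 1) → ι), y.2) ∈ S := by
      intro y hy
      obtain ⟨x, hx, rfl⟩ := Finset.mem_image.1 hy
      obtain ⟨hx1, hx2⟩ := Finset.mem_filter.1 hx
      have : ((Fin.cons (x.1 0) l : Fin (k + 1) → ι), x.2) = x := by
        rw [← hx2, Fin.cons_self_tail]
      rw [this]
      exact hx1
    have h4 := one_order h h3 S' (B := fun y => B (Fin.cons y.1 l))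
      (fun y hy => cons_factor (hB _ (hmem y hy)))
      (r := fun y => r ((Fin.cons y.1 l : Fin (k + 1) → ι), y.2)) (fun y hy => by
        have h5 := hr _ (hmem y hy)
        rw [hw] at h5
        rw [List.length_ofFn]
        exact h5)
    rw [List.length_ofFn] at h4
    refine le_trans (le_of_eq ?_) h4
    rw [hS', Finset.sum_image]
    · refine Finset.sum_congr rfl fun x hx => ?_
      have hx2 := (Finset.mem_filter.1 hx).2
      have : ((Fin.cons (x.1 0) l : Fin (k + 1) → ι), x.2) = x := by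
        rw [← hx2, Fin.cons_self_tail]
      rw [this]
    · intro x hx y hy hxy
      have hx2 := (Finset.mem_filter.1 (Finset.mem_coe.1 hx)).2
      have hy2 := (Finset.mem_filter.1 (Finset.mem_coe.1 hy)).2
      simp only [Prod.mk.injEq] at hxy
      refine Prod.ext ?_ hxy.2
      rw [← Fin.cons_self_tail x.1, ← Fin.cons_self_tail y.1, hx2, hy2, hxy.1]
  refine (Finset.sum_le_card_nsmul _ _ _ h2).trans (le_of_eq ?_)
  rw [card_tup, nsmul_eq_mul]
  push_cast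
  have h4 : ((2 : ℤ) ^ k) ^ 2 = 4 ^ k := by
    rw [← pow_mul, mul_comm, pow_mul]
    norm_num
  rw [mul_pow, h4]
  ring

end

end Pool.Agent.Y149.TL
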