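import Pool.Agent.Y149.PK.Defs

/-!
# Tensor products with elliptic curves on the edge line: definitions

The files are about the `L`-functions `L(M ⊗ h¹(E_1) ⊗ ⋯ ⊗ h¹(E_k), s)`, `M` an arbitrary motive over
`ℚ` and `E_i` elliptic curves over `ℚ`, on the line `Re s = w/2 + 1` at the edge of the half plane of
absolute convergence, `w` the weight.
-/

set_option autoImplicit false

namespace Pool.Agent.Y149.TL

open Filter Topology Polynomial
open Pool.Agent.Y149.CM (LFun)
open Pool.Agent.Y149.PK (tens frobE)

/-- The cohomology `H = H^w(M)` of a motive `M` over `ℚ` in one degree, as far as the Frobenius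
eigenvalues at almost all primes are concerned: `frob p` is the multiset of the eigenvalues of the
geometric Frobenius at `p`, it has `rank` elements, and they have absolute value `p^{w/2}`,
`w = weight`.  By the theorem of Deligne every Chow motive `M = (X, π, r)` over `ℚ` and every integer
`w` give such data, for every choice of the auxiliary primes `ℓ_p`: `rank` is the dimension of
`H^w(M)`, and almost all `p` are primes of good reduction of `X`. -/
structure Motive where
  weight : ℤ
  rank : ℕ
  frob : Nat.Primes → Multiset ℂ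
  pure : ∀ᶠ p : Nat.Primes in cofinite, (∀ z ∈ frob p, ‖z‖ = (p : ℝ) ^ ((weight : ℝ) / 2)) ∧
    Multiset.card (frob p) = rank

/-- The point of the edge line with imaginary part `τ`, for an `L`-function of weight `w`. -/
noncomputable def edge (w : ℤ) (τ : ℝ) : ℂ := (w : ℂ) / 2 + 1 + τ * Complex.I

/-- The polynomials `B p`, `p` prime, are the Euler factors of an `L`-function of weight `w`.  For
almost all `p`, `B_p(z) = ∏ (1 - α z)`, the product over the multiset `δ p` of the eigenvalues of
Frobenius at `p`.  At the other primes `B p` is an arbitrary polynomial, and no factor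
`1 / B_p(p^{-s})` has a pole on the edge line `Re s = w/2 + 1`. -/
def IsEuler (w : ℤ) (δ : Nat.Primes → Multiset ℂ) (B : Nat.Primes → ℂ[X]) : Prop :=
  (∀ᶠ p : Nat.Primes in cofinite, ∀ z : ℂ, (B p).eval z = ((δ p).map fun α => 1 - α * z).prod) ∧
  ∀ (p : Nat.Primes) (τ : ℝ), (B p).eval ((p : ℂ) ^ (-(edge w τ))) ≠ 0

/-- `log |L(w/2 + 1 + iτ + ε)| / log(1/ε)` -/
noncomputable def size (w : ℤ) (B : Nat.Primes → ℂ[X]) (τ ε : ℝ) : ℝ :=
  Real.log ‖LFun B (edge w τ + ε)‖ / Real.log (1 / ε)

/-- `r` is the order of `L(s)` at the edge point `s₀ = w/2 + 1 + iτ`: the function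
`(s - s₀)^{-r} L(s)` has a finite nonzero limit as `s → s₀` from the right on the horizontal line.
If `L(s)` continues to a meromorphic function in a neighbourhood of `s₀`, this is its order at `s₀`
(positive for a zero, negative for a pole). -/
def HasOrder (w : ℤ) (B : Nat.Primes → ℂ[X]) (τ : ℝ) (r : ℤ) : Prop :=
  ∃ a : ℂ, a ≠ 0 ∧
    Tendsto (fun ε : ℝ => (ε : ℂ) ^ (-r) * LFun B (edge w τ + ε)) (𝓝[>] 0) (𝓝 a)

/-- The eigenvalues on `H ⊗ H_{l_1} ⊗ ⋯ ⊗ H_{l_k}`, `β` those on `H` and `γ e` those on `H_e`. -/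
noncomputable def tensL {ι : Type} (β : Multiset ℂ) (γ : ι → Multiset ℂ) : List ι → Multiset ℂ
  | [] => β
  | e :: l => tens (tensL β γ l) (γ e)

/-- `B` are the Euler factors of `L(H ⊗ H¹(E_{l_1}) ⊗ ⋯ ⊗ H¹(E_{l_k}), s)`, where `E_i` is the elliptic
curve `y² = x³ + a_i x + b_i`. -/
def IsLFactor {ι : Type} (M : Motive) (a b : ι → ℤ) (l : List ι) (B : Nat.Primes → ℂ[X]) : Prop :=
  IsEuler (M.weight + l.length)
    (fun p => tensL (M.frob p) (fun i => frobE (a i) (b i) p 1) l) B

end Pool.Agent.Y149.TL
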