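import Pool.Agent.Y149.PK.Ell

/-! Families of real functions on the primes which are almost orthogonal at all heights. -/

set_option autoImplicit false

namespace Pool.Agent.Y149.TL

open Finset Filter Topology Complex ComplexConjugate
open Pool.Agent.W540.BE (EP NormSys EP_const_mul EP_add EP_sum)
open Pool.Agent.H341R2 (E lam lam_tendsto lam_bounded)
open Pool.Agent.Y149.LN (normSysP E_eq_EP bessel_D norm_pI)
open Pool.Agent.Y149.CR (EP_mono' abs_EP_le zr norm_sum_sq EP_sum2)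
open Pool.Agent.Y149.PK (E_add' E_smul E_mono abs_E_le lam_pos E_one)

section
variable {ι : Type*}

/-- Real functions `T e` on the primes, bounded by `b`, with mean square at most `v²`; at different
heights, and for not related members at the same height, their correlations are bounded on one side. -/
structure LineFam (R : ι → ι → Prop) (M : ℕ) (T : ι → Nat.Primes → ℝ) (b v : ℝ) : Prop where
  bd : ∀ e p, |T e p| ≤ b
  v0 : 0 ≤ v
  diag : ∀ e, ∃ C : ℝ, ∀ᶠ ε : ℝ in 𝓝[>] 0, E ε (fun p => T e p ^ 2) ≤ v ^ 2 * lam ε + C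
  cross : ∀ e e', ¬ R e e' → ∃ C : ℝ, ∀ᶠ ε : ℝ in 𝓝[>] 0, E ε (fun p => T e p * T e' p) ≤ C
  twist : ∀ (e e' : ι) (τ : ℝ), τ ≠ 0 → ∃ C : ℝ, ∀ᶠ ε : ℝ in 𝓝[>] 0,
    E ε (fun p => T e p * T e' p * zr τ p) ≤ C
  symm : ∀ e e', R e e' → R e' e
  mult : ∀ (e : ι) (S : Finset ι), (∀ e' ∈ S, R e e') → S.card ≤ M

/-- the function at a height -/
noncomputable def wT (T : ι → Nat.Primes → ℝ) (a : ι × ℝ) (p : Nat.Primes) : ℂ :=
  (T a.1 p : ℂ) * ((p : ℕ) : ℂ) ^ (-((a.2 : ℂ) * I))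

variable {R : ι → ι → Prop} {M : ℕ} {T : ι → Nat.Primes → ℝ} {b v : ℝ}

theorem LineFam.norm_wT (h : LineFam R M T b v) (a : ι × ℝ) (p : Nat.Primes) : ‖wT T a p‖ ≤ b := by
  unfold wT
  rw [norm_mul, norm_pI, mul_one, Complex.norm_real, Real.norm_eq_abs]
  exact h.bd _ _

theorem LineFam.b0 (h : LineFam R M T b v) [Nonempty ι] : 0 ≤ b :=
  (abs_nonneg _).trans (h.bd (Classical.arbitrary ι) ⟨2, Nat.prime_two⟩)

theorem wT_re (T : ι → Nat.Primes → ℝ) (a b : ι × ℝ) (p : Nat.Primes) :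
    (wT T a p * conj (wT T b p)).re = T a.1 p * T b.1 p * zr (a.2 - b.2) p := by
  have hpc : ((p : ℕ) : ℂ) ≠ 0 := by exact_mod_cast p.2.ne_zero
  have harg : ((p : ℕ) : ℂ).arg ≠ Real.pi := by
    rw [Complex.natCast_arg]
    exact Real.pi_pos.ne
  have e0 : conj (((p : ℕ) : ℂ) ^ (-((b.2 : ℂ) * I))) = ((p : ℕ) : ℂ) ^ ((b.2 : ℂ) * I) := by
    have h1 := Complex.cpow_conj ((p : ℕ) : ℂ) (-((b.2 : ℂ) * I)) harg
    rw [Complex.conj_natCast] at h1
    rw [← h1]
    congr 1
    simp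
  have e1 : wT T a p * conj (wT T b p) = ((T a.1 p * T b.1 p : ℝ) : ℂ) *
      ((p : ℕ) : ℂ) ^ (-(((a.2 - b.2 : ℝ) : ℂ) * I)) := by
    unfold wT
    rw [map_mul, Complex.conj_ofReal, e0]
    have e2 : ((p : ℕ) : ℂ) ^ (-(((a.2 - b.2 : ℝ) : ℂ) * I)) =
        ((p : ℕ) : ℂ) ^ (-((a.2 : ℂ) * I)) * ((p : ℕ) : ℂ) ^ ((b.2 : ℂ) * I) := by
      rw [← Complex.cpow_add _ _ hpc]
      congr 1
      push_cast
      ring
    rw [e2]
    push_cast
    ring
  rw [e1, Complex.re_ofReal_mul]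
  rfl

/-- related members at the same height -/
def RR (R : ι → ι → Prop) (a b : ι × ℝ) : Prop := R a.1 b.1 ∧ a.2 = b.2

theorem LineFam.mult' (h : LineFam R M T b v) (a : ι × ℝ) (S : Finset (ι × ℝ))
    (hS : ∀ x ∈ S, RR R a x) : S.card ≤ M := by
  classical
  have h1 : (S.image Prod.fst).card = S.card := by
    refine Finset.card_image_of_injOn fun x hx y hy hxy => ?_
    exact Prod.ext hxy ((hS x hx).2.symm.trans (hS y hy).2)
  rw [← h1]
  refine h.mult a.1 _ fun e he => ?_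
  obtain ⟨x, hx, rfl⟩ := Finset.mem_image.1 he
  exact (hS x hx).1

/-- the correlations -/
theorem LineFam.corr (h : LineFam R M T b v) (x y : ι × ℝ) : ∃ C : ℝ, 0 ≤ C ∧
    ∀ᶠ ε : ℝ in 𝓝[>] 0, (E ε fun p => (wT T x p * conj (wT T y p)).re) ≤
      (open Classical in if RR R x y then v ^ 2 * lam ε else 0) + C := by
  classical
  have e1 : ∀ ε, (E ε fun p => (wT T x p * conj (wT T y p)).re) =
      E ε fun p : Nat.Primes => T x.1 p * T y.1 p * zr (x.2 - y.2) p := by
    intro ε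
    congr 1
    funext p
    exact wT_re T x y p
  by_cases hR : RR R x y
  · obtain ⟨C, hC⟩ := h.diag x.1
    obtain ⟨C', hC'⟩ := h.diag y.1
    refine ⟨|C| + |C'|, by positivity, ?_⟩
    filter_upwards [hC, hC', self_mem_nhdsWithin] with ε h1 h2 h3
    have hε : (0 : ℝ) < ε := h3
    rw [if_pos hR, e1]
    have e2 : (fun p : Nat.Primes => T x.1 p * T y.1 p * zr (x.2 - y.2) p) =
        fun p => T x.1 p * T y.1 p := by
      funext p
      rw [hR.2, sub_self, Pool.Agent.Y149.CR.zr_zero, mul_one]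
    rw [e2]
    have hb2 : ∀ (f : ι) p, |1 / 2 * T f p ^ 2| ≤ 1 / 2 * b ^ 2 := fun f p => by
      rw [abs_mul, abs_pow, abs_of_pos (by norm_num : (0 : ℝ) < 1 / 2)]
      exact mul_le_mul_of_nonneg_left (pow_le_pow_left₀ (abs_nonneg _) (h.bd f p) 2) (by norm_num)
    have h4 : E ε (fun p => T x.1 p * T y.1 p) ≤
        1 / 2 * E ε (fun p => T x.1 p ^ 2) + 1 / 2 * E ε (fun p => T y.1 p ^ 2) := by
      rw [← E_smul, ← E_smul, ← E_add' hε (hb2 x.1) (hb2 y.1)]
      refine E_mono hε (B := b * b) (fun p => ?_)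
        (fun p => (abs_add_le _ _).trans (add_le_add (hb2 x.1 p) (hb2 y.1 p))) (fun p => ?_)
      · rw [abs_mul]
        exact mul_le_mul (h.bd _ p) (h.bd _ p) (abs_nonneg _) ((abs_nonneg _).trans (h.bd x.1 p))
      · nlinarith [sq_nonneg (T x.1 p - T y.1 p)]
    have h5 := le_abs_self C
    have h6 := le_abs_self C'
    linarith [abs_nonneg C, abs_nonneg C']
  · simp only [if_neg hR]
    rcases eq_or_ne x.2 y.2 with h2 | h2
    · have h3 : ¬ R x.1 y.1 := fun h3 => hR ⟨h3, h2⟩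
      obtain ⟨C, hC⟩ := h.cross _ _ h3
      refine ⟨|C|, abs_nonneg _, hC.mono fun ε h4 => ?_⟩
      rw [zero_add, e1]
      have e2 : (fun p : Nat.Primes => T x.1 p * T y.1 p * zr (x.2 - y.2) p) =
          fun p => T x.1 p * T y.1 p := by
        funext p
        rw [h2, sub_self, Pool.Agent.Y149.CR.zr_zero, mul_one]
      rw [e2]
      exact h4.trans (le_abs_self C)
    · obtain ⟨C, hC⟩ := h.twist x.1 y.1 _ (sub_ne_zero.2 h2)
      refine ⟨|C|, abs_nonneg _, hC.mono fun ε h4 => ?_⟩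
      rw [zero_add, e1]
      exact h4.trans (le_abs_self C)

/-- the mean of the square of a nonnegative combination -/
theorem LineFam.var_le (h : LineFam R M T b v) (S : Finset (ι × ℝ)) (B : ℝ) :
    ∃ C : ℝ, ∀ᶠ ε : ℝ in 𝓝[>] 0, ∀ w : ι × ℝ → ℝ, (∀ a ∈ S, 0 ≤ w a ∧ w a ≤ B) →
      (E ε fun p => ‖∑ a ∈ S, (w a : ℂ) * wT T a p‖ ^ 2) ≤
        (M * v ^ 2) * ((∑ a ∈ S, w a ^ 2) * lam ε) + C := by
  classical
  choose C hC0 hC using fun x y => h.corr x y
  refine ⟨∑ x ∈ S, ∑ y ∈ S, B ^ 2 * C x y, ?_⟩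
  have hev : ∀ᶠ ε : ℝ in 𝓝[>] 0, ∀ x ∈ S, ∀ y ∈ S,
      (E ε fun p => (wT T x p * conj (wT T y p)).re) ≤
        (if RR R x y then v ^ 2 * lam ε else 0) + C x y := by
    rw [Filter.eventually_all_finset]
    intro x _
    rw [Filter.eventually_all_finset]
    exact fun y _ => hC x y
  filter_upwards [hev, lam_pos, self_mem_nhdsWithin] with ε h1 hlam h2 w hw
  have hε : (0 : ℝ) < ε := h2
  have e1 : (E ε fun p => ‖∑ a ∈ S, (w a : ℂ) * wT T a p‖ ^ 2) =
      ∑ x ∈ S, ∑ y ∈ S, (w x * w y) * E ε fun p => (wT T x p * conj (wT T y p)).re := by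
    have e2 : (E ε fun p => ‖∑ a ∈ S, (w a : ℂ) * wT T a p‖ ^ 2) =
        EP (fun p : Nat.Primes => (p : ℕ)) ε fun p =>
          ∑ x ∈ S, ∑ y ∈ S, (w x * w y) * (wT T x p * conj (wT T y p)).re := by
      rw [E_eq_EP]
      congr 1
      funext p
      exact norm_sum_sq S w fun a => wT T a p
    rw [e2, EP_sum2 normSysP hε S S (fun x y => w x * w y)
      (fun x y p => (wT T x p * conj (wT T y p)).re) (fun _ _ => b * b) (fun x hx y hy p => by
        refine (Complex.abs_re_le_norm _).trans ?_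
        rw [norm_mul, Complex.norm_conj]
        exact mul_le_mul (h.norm_wT x p) (h.norm_wT y p) (norm_nonneg _)
          ((norm_nonneg _).trans (h.norm_wT x p)))]
    rfl
  rw [e1]
  set L : ℝ := v ^ 2 * lam ε with hL
  have hL0 : 0 ≤ L := by positivity
  have h3 : ∑ x ∈ S, ∑ y ∈ S, (w x * w y) * (E ε fun p => (wT T x p * conj (wT T y p)).re) ≤
      ∑ x ∈ S, ∑ y ∈ S, ((if RR R x y then (w x ^ 2 + w y ^ 2) / 2 * L else 0) +
        B ^ 2 * C x y) := by
    refine Finset.sum_le_sum fun x hx => Finset.sum_le_sum fun y hy => ?_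
    have hcx := hw x hx
    have hcy := hw y hy
    have hcc0 : 0 ≤ w x * w y := mul_nonneg hcx.1 hcy.1
    have hcc1 : w x * w y ≤ B ^ 2 := by
      rw [sq]
      exact mul_le_mul hcx.2 hcy.2 hcy.1 (hcx.1.trans hcx.2)
    refine (mul_le_mul_of_nonneg_left (h1 x hx y hy) hcc0).trans ?_
    rw [mul_add]
    refine add_le_add ?_ (mul_le_mul_of_nonneg_right hcc1 (hC0 x y))
    split_ifs
    · refine mul_le_mul_of_nonneg_right ?_ hL0
      nlinarith [sq_nonneg (w x - w y)]
    · rw [mul_zero]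
  refine h3.trans ?_
  have h4 : ∑ x ∈ S, ∑ y ∈ S, ((if RR R x y then (w x ^ 2 + w y ^ 2) / 2 * L else 0) +
      B ^ 2 * C x y) =
      (∑ x ∈ S, ∑ y ∈ S, if RR R x y then (w x ^ 2 + w y ^ 2) / 2 * L else 0) +
      ∑ x ∈ S, ∑ y ∈ S, B ^ 2 * C x y := by
    rw [← Finset.sum_add_distrib]
    exact Finset.sum_congr rfl fun x _ => Finset.sum_add_distrib
  rw [h4]
  refine add_le_add_left ?_ _
  have hRs : ∀ x y, RR R x y → RR R y x := fun x y h' => ⟨h.symm _ _ h'.1, h'.2.symm⟩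
  have h5 : (∑ x ∈ S, ∑ y ∈ S, if RR R x y then (w x ^ 2 + w y ^ 2) / 2 * L else 0) =
      ∑ x ∈ S, ∑ y ∈ S, if RR R x y then w x ^ 2 * L else 0 := by
    have e5 : (∑ x ∈ S, ∑ y ∈ S, if RR R x y then (w x ^ 2 + w y ^ 2) / 2 * L else 0) =
        (∑ x ∈ S, ∑ y ∈ S, if RR R x y then w x ^ 2 / 2 * L else 0) +
        ∑ x ∈ S, ∑ y ∈ S, if RR R x y then w y ^ 2 / 2 * L else 0 := by
      rw [← Finset.sum_add_distrib]
      refine Finset.sum_congr rfl fun x _ => ?_
      rw [← Finset.sum_add_distrib]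
      refine Finset.sum_congr rfl fun y _ => ?_
      split_ifs <;> ring
    have e6 : (∑ x ∈ S, ∑ y ∈ S, if RR R x y then w y ^ 2 / 2 * L else 0) =
        ∑ x ∈ S, ∑ y ∈ S, if RR R x y then w x ^ 2 / 2 * L else 0 := by
      rw [Finset.sum_comm]
      refine Finset.sum_congr rfl fun x _ => Finset.sum_congr rfl fun y _ => ?_
      by_cases hR : RR R x y
      · rw [if_pos hR, if_pos (hRs _ _ hR)]
      · rw [if_neg hR, if_neg fun h' => hR (hRs _ _ h')]
    rw [e5, e6, ← Finset.sum_add_distrib]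
    refine Finset.sum_congr rfl fun x _ => ?_
    rw [← Finset.sum_add_distrib]
    refine Finset.sum_congr rfl fun y _ => ?_
    split_ifs <;> ring
  rw [h5]
  have h6 : ∀ x ∈ S, (∑ y ∈ S, if RR R x y then w x ^ 2 * L else 0) ≤ M * (w x ^ 2 * L) := by
    intro x _
    rw [← Finset.sum_filter, Finset.sum_const, nsmul_eq_mul]
    refine mul_le_mul_of_nonneg_right ?_ (by positivity)
    exact_mod_cast h.mult' x (S.filter fun y => RR R x y) fun y hy => (Finset.mem_filter.1 hy).2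
  refine (Finset.sum_le_sum h6).trans (le_of_eq ?_)
  rw [← Finset.mul_sum, ← Finset.sum_mul, hL]
  ring

/-- the phase -/
noncomputable def ph (z : ℂ) : ℂ := open Classical in if z = 0 then 1 else z / (‖z‖ : ℂ)

theorem norm_ph (z : ℂ) : ‖ph z‖ = 1 := by
  unfold ph
  split_ifs with h
  · simp
  · rw [norm_div, Complex.norm_real, norm_norm, div_self (norm_ne_zero_iff.2 h)]

theorem mul_ph (z : ℂ) : (‖z‖ : ℂ) * ph z = z := by
  unfold ph
  split_ifs with h
  · simp [h]
  · rw [mul_div_cancel₀]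
    exact_mod_cast norm_ne_zero_iff.2 h

/-- **Bessel's inequality** on the line, with both signs. -/
theorem LineFam.bes (h : LineFam R M T b v) (S : Finset (ι × ℝ)) (Q : Nat.Primes → ℂ) {c : ℝ}
    (hQ : ∀ p, ‖Q p‖ ≤ c) {η : ℝ} (hη : 0 < η) :
    ∀ᶠ ε : ℝ in 𝓝[>] 0, ∑ a ∈ S, ((E ε fun p => (Q p * wT T a p).re) / lam ε) ^ 2 ≤
      2 * M * v ^ 2 * c ^ 2 + η := by
  classical
  have hc0 : 0 ≤ c := (norm_nonneg _).trans (hQ ⟨2, Nat.prime_two⟩)
  set δ : ℝ := η / (4 * (c ^ 2 + 1)) with hδ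
  have hδ0 : 0 < δ := by positivity
  have hlam1 : Tendsto (fun ε : ℝ => EP (fun p : Nat.Primes => (p : ℕ)) ε (fun _ => 1) / lam ε)
      (𝓝[>] 0) (𝓝 1) := by
    refine tendsto_const_nhds.congr' ?_
    filter_upwards [lam_pos] with ε hε
    have e : EP (fun p : Nat.Primes => (p : ℕ)) ε (fun _ => 1) = lam ε := E_one ε
    rw [e, div_self hε.ne']
  have key : ∀ s : ℝ, (s = 1 ∨ s = -1) → ∀ᶠ ε : ℝ in 𝓝[>] 0,
      ∑ a ∈ S, (max (s * ((E ε fun p => (Q p * wT T a p).re) / lam ε)) 0) ^ 2 ≤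
      (M * v ^ 2 + δ) * c ^ 2 + η / 4 := by
    intro s hs
    have hs1 : s ^ 2 = 1 := by rcases hs with rfl | rfl <;> norm_num
    have hsa : |s| = 1 := by rcases hs with rfl | rfl <;> norm_num
    have h1 := bessel_D normSysP lam_tendsto hlam1 S (fun a p => ph (Q p) * wT T a p)
      (fun p => s * ‖Q p‖) (bu := b) (bT := c) (D := M * v ^ 2 + δ)
      (by have := h.v0; positivity)
      (fun a p => by rw [norm_mul, norm_ph, one_mul]; exact h.norm_wT a p)
      (fun p => by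
        rw [abs_mul, hsa, one_mul, abs_of_nonneg (norm_nonneg _)]
        exact hQ p) (fun B => by
        obtain ⟨C, hC⟩ := h.var_le S B
        refine ⟨C, ?_⟩
        filter_upwards [hC, lam_pos] with ε h1 h2 w hw
        have e1 : (EP (fun p : Nat.Primes => (p : ℕ)) ε fun p =>
            ‖∑ a ∈ S, (w a : ℂ) * (ph (Q p) * wT T a p)‖ ^ 2) =
            E ε fun p => ‖∑ a ∈ S, (w a : ℂ) * wT T a p‖ ^ 2 := by
          rw [E_eq_EP]
          congr 1
          funext p
          have e2 : ∑ a ∈ S, (w a : ℂ) * (ph (Q p) * wT T a p) =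
              ph (Q p) * ∑ a ∈ S, (w a : ℂ) * wT T a p := by
            rw [Finset.mul_sum]
            exact Finset.sum_congr rfl fun a _ => by ring
          rw [e2, norm_mul, norm_ph, one_mul]
        rw [e1]
        refine (h1 w hw).trans ?_
        refine add_le_add_left (mul_le_mul_of_nonneg_right (by linarith) ?_) _
        exact mul_nonneg (Finset.sum_nonneg fun _ _ => sq_nonneg _) h2.le)
      (fun a ε => s * ((E ε fun p => (Q p * wT T a p).re) / lam ε)) (fun a _ => by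
        refine tendsto_const_nhds.congr fun ε => ?_
        have e2 : (EP (fun p : Nat.Primes => (p : ℕ)) ε
            fun p => s * ‖Q p‖ * (ph (Q p) * wT T a p).re) =
            s * E ε fun p => (Q p * wT T a p).re := by
          rw [← E_smul, E_eq_EP]
          congr 1
          funext p
          have e3 : (Q p * wT T a p).re = ‖Q p‖ * (ph (Q p) * wT T a p).re := by
            conv_lhs => rw [← mul_ph (Q p)]
            rw [mul_assoc, Complex.re_ofReal_mul]
          rw [e3]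
          ring
        rw [e2]
        ring) (η := η / 4) (by positivity)
    filter_upwards [h1, lam_pos, self_mem_nhdsWithin] with ε h2 h3 h4
    have hε : (0 : ℝ) < ε := h4
    refine h2.trans ?_
    refine add_le_add_left (mul_le_mul_of_nonneg_left ?_ (by have := h.v0; positivity)) _
    rw [div_le_iff₀ h3]
    have h5 : (EP (fun p : Nat.Primes => (p : ℕ)) ε fun p => (s * ‖Q p‖) ^ 2) ≤ c ^ 2 * lam ε := by
      refine (le_abs_self _).trans (abs_E_le hε fun p => ?_)
      rw [abs_pow, abs_mul, hsa, one_mul, abs_of_nonneg (norm_nonneg _)]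
      exact pow_le_pow_left₀ (norm_nonneg _) (hQ p) 2
    exact h5
  have hδb : δ * c ^ 2 ≤ η / 4 := by
    rw [hδ, div_mul_eq_mul_div, div_le_iff₀ (by positivity)]
    nlinarith [sq_nonneg c]
  filter_upwards [key 1 (Or.inl rfl), key (-1) (Or.inr rfl)] with ε h1 h2
  have h3 : ∀ a ∈ S, ((E ε fun p => (Q p * wT T a p).re) / lam ε) ^ 2 =
      (max (1 * ((E ε fun p => (Q p * wT T a p).re) / lam ε)) 0) ^ 2 +
      (max (-1 * ((E ε fun p => (Q p * wT T a p).re) / lam ε)) 0) ^ 2 := by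
    intro a _
    rcases le_total 0 ((E ε fun p => (Q p * wT T a p).re) / lam ε) with h0 | h0
    · rw [one_mul, max_eq_left h0, max_eq_right (by linarith)]
      ring
    · rw [one_mul, max_eq_right h0, max_eq_left (by linarith)]
      ring
  rw [Finset.sum_congr rfl h3, Finset.sum_add_distrib]
  linarith

end

/-! ### The elliptic curves -/

section
open Pool.Agent.Y722.EP (IsModular IsNewformOf NotIsogenous points finite_dvd)
open Pool.Agent.Y722.RS (S2 rc tt tt_le cross_le self_le)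
variable {ι : Type} {a b : ι → ℤ} {M : ℕ} {Nf : ι → ℕ} [∀ i, NeZero (Nf i)] {f : ∀ i, S2 (Nf i)}

/-- **The family of modular elliptic curves on the line.** -/
theorem line_ell (hf : ∀ i, IsNewformOf (f i) (a i) (b i))
    (hM : ∀ (i : ι) (S : Finset ι), (∀ j ∈ S, ¬ NotIsogenous (a i) (b i) (a j) (b j)) →
      S.card ≤ M) :
    LineFam (fun i j => ¬ NotIsogenous (a i) (b i) (a j) (b j)) M (fun i p => tt (f i) p) 2 1 := by
  refine ⟨fun i p => tt_le (hf i).1 p.2, zero_le_one, fun i => ?_, fun i j hij => ?_,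
    fun i j τ hτ => Pool.Agent.Y149.CR.cross_le_t (hf i).1 (hf j).1 hτ,
    fun i j hij h => hij (Pool.Agent.Y149.PK.notIsogenous_symm h), hM⟩
  · obtain ⟨C, hC⟩ := self_le (hf i).1
    obtain ⟨C', hC'⟩ := lam_bounded
    refine ⟨C + C', ?_⟩
    filter_upwards [hC, hC'] with ε h1 h2
    have e1 : (fun p : Nat.Primes => tt (f i) p ^ 2) =
        fun p : Nat.Primes => tt (f i) p * tt (f i) p := by
      funext p
      ring
    rw [e1, one_pow, one_mul]
    have e3 : Real.log (1 / ε) = -Real.log ε := by rw [one_div, Real.log_inv]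
    rw [e3] at h1
    have h3 := (abs_le.1 h2).1
    linarith
  · obtain ⟨p, hp, h1, h2, h3⟩ := not_not.1 hij
    obtain ⟨h4, h5⟩ := (hf i).2 p hp h1
    obtain ⟨h6, h7⟩ := (hf j).2 p hp h2
    exact cross_le (hf i).1 (hf j).1 hp h4 h6 (by
      unfold rc
      rw [h5, h7]
      intro h
      apply h3
      simp at h
      exact_mod_cast h)

end

end Pool.Agent.Y149.TL
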