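import Mathlib

/-! A diagonal argument: an infinite subset which avoids finite bad sets. -/

set_option autoImplicit false

open Finset

namespace Pool.Agent.Y149.TL

section
variable {ι : Type}

/-- the elements which are not allowed after `F` -/
def avoid (Bad : ℕ → Finset ι → Set ι) (F : Finset ι) : Set ι :=
  (F : Set ι) ∪ ⋃ j ∈ (Finset.range (F.card + 1) : Set ℕ), ⋃ A ∈ (F.powerset : Set (Finset ι)),
    Bad j A

theorem avoid_finite {Bad : ℕ → Finset ι → Set ι} (h : ∀ j A, (Bad j A).Finite) (F : Finset ι) :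
    (avoid Bad F).Finite := by
  refine F.finite_toSet.union ?_
  refine Set.Finite.biUnion (Finset.finite_toSet _) fun j _ => ?_
  exact Set.Finite.biUnion (Finset.finite_toSet _) fun A _ => h j A

/-- **The diagonal argument.** -/
theorem greedy [Infinite ι] {Bad : ℕ → Finset ι → Set ι} (h : ∀ j A, (Bad j A).Finite) :
    ∃ 𝒥 : Set ι, 𝒥.Infinite ∧ ∀ j, ∃ F : Finset ι, (∀ x ∈ F, x ∈ 𝒥) ∧
      ∀ A : Finset ι, (∀ x ∈ A, x ∈ 𝒥) → (∃ x ∈ A, x ∉ F) → open Classical in
        ∃ e ∈ A, e ∉ Bad j (A.erase e) := by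
  classical
  have hnxt : ∀ F : Finset ι, ∃ e, e ∉ avoid Bad F := fun F =>
    ((avoid_finite h F).infinite_compl).nonempty
  choose nxt hn using hnxt
  set G : ℕ → Finset ι := fun n => Nat.rec ∅ (fun _ F => insert (nxt F) F) n with hG
  have hG0 : G 0 = ∅ := rfl
  have hGs : ∀ n, G (n + 1) = insert (nxt (G n)) (G n) := fun n => rfl
  have hnot : ∀ n, nxt (G n) ∉ G n := fun n h' => hn (G n) (Or.inl h')
  have hcard : ∀ n, (G n).card = n := by
    intro n
    induction n with
    | zero => rfl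
    | succ n ih => rw [hGs, Finset.card_insert_of_notMem (hnot n), ih]
  have hmono : ∀ i j, i ≤ j → G i ⊆ G j := by
    intro i j hij
    induction j, hij using Nat.le_induction with
    | base => exact Finset.Subset.refl _
    | succ j _ ih =>
      rw [hGs]
      exact ih.trans (Finset.subset_insert _ _)
  refine ⟨⋃ i, (G i : Set ι), ?_, fun j => ⟨G j, fun x hx => Set.mem_iUnion.2 ⟨j, hx⟩,
    fun A hA hex => ?_⟩⟩
  · intro hfin
    have h2 : ∀ i, i ≤ hfin.toFinset.card := by
      intro i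
      rw [← hcard i]
      refine Finset.card_le_card fun x hx => ?_
      rw [Set.Finite.mem_toFinset]
      exact Set.mem_iUnion.2 ⟨i, hx⟩
    have := h2 (hfin.toFinset.card + 1)
    omega
  · have h1 : ∃ n, A ⊆ G n := by
      have h2 : ∀ x : A, ∃ n, (x : ι) ∈ G n := fun x => by
        obtain ⟨n, hn⟩ := Set.mem_iUnion.1 (hA x x.2)
        exact ⟨n, hn⟩
      choose n hn2 using h2
      refine ⟨Finset.univ.sup n, fun x hx => ?_⟩
      exact hmono (n ⟨x, hx⟩) _ (Finset.le_sup (Finset.mem_univ _)) (hn2 ⟨x, hx⟩)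
    set n := Nat.find h1 with hndef
    have hn1 : A ⊆ G n := Nat.find_spec h1
    obtain ⟨x, hxA, hxF⟩ := hex
    have hjn : j < n := by
      by_contra h2
      exact hxF (hmono n j (not_lt.1 h2) (hn1 hxA))
    obtain ⟨m, hm⟩ : ∃ m, n = m + 1 := ⟨n - 1, by omega⟩
    have hmin : ¬ A ⊆ G m := Nat.find_min h1 (by omega)
    rw [hm, hGs] at hn1
    have hmem : nxt (G m) ∈ A := by
      by_contra h2
      exact hmin fun y hy => (Finset.mem_insert.1 (hn1 hy)).resolve_left fun h3 => h2 (h3 ▸ hy)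
    refine ⟨nxt (G m), hmem, fun hbad => hn (G m) (Or.inr ?_)⟩
    simp only [Set.mem_iUnion]
    refine ⟨j, ?_, A.erase (nxt (G m)), ?_, hbad⟩
    · rw [Finset.mem_coe, Finset.mem_range, hcard]
      omega
    · rw [Finset.mem_coe, Finset.mem_powerset]
      intro y hy
      exact (Finset.mem_insert.1 (hn1 (Finset.mem_of_mem_erase hy))).resolve_left
        (Finset.ne_of_mem_erase hy)

end

end Pool.Agent.Y149.TL
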