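import Pool.Agent.Y149.TL.Defs
import Pool.Agent.Y149.TL.Fam

/-! Reduction to nonnegative weights and to the real point. -/

set_option autoImplicit false

open Finset Filter Topology Complex Polynomial

namespace Pool.Agent.Y149.TL

open Pool.Agent.H341R2 (E lam lam_tendsto)
open Pool.Agent.Y149.CM (LFun)
open Pool.Agent.Y149.PK (tens frobE log_gen size_sub size_order)

/-- the exponent -/
noncomputable def cc (w : ℤ) (τ : ℝ) : ℂ := (w.natAbs : ℂ) - τ * I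

/-- the new weight -/
def nn (w : ℤ) : ℕ := (w + 2 * w.natAbs).toNat

theorem nn_cast (w : ℤ) : (nn w : ℤ) = w + 2 * w.natAbs := by
  unfold nn
  rw [Int.toNat_of_nonneg (by omega)]

theorem nn_real (w : ℤ) : (nn w : ℝ) = w + 2 * (w.natAbs : ℕ) := by
  have h := nn_cast w
  have h2 : ((nn w : ℤ) : ℝ) = ((w + 2 * w.natAbs : ℤ) : ℝ) := by rw [h]
  simp only [Int.cast_add, Int.cast_mul, Int.cast_natCast, Int.cast_ofNat] at h2
  exact h2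

theorem nn_complex (w : ℤ) : (nn w : ℂ) = w + 2 * (w.natAbs : ℕ) := by
  have h := nn_cast w
  have h2 : ((nn w : ℤ) : ℂ) = ((w + 2 * w.natAbs : ℤ) : ℂ) := by rw [h]
  simp only [Int.cast_add, Int.cast_mul, Int.cast_natCast, Int.cast_ofNat] at h2
  exact h2

/-- the twisted eigenvalues -/
noncomputable def shiftD (w : ℤ) (τ : ℝ) (δ : Nat.Primes → Multiset ℂ) (p : Nat.Primes) :
    Multiset ℂ := (δ p).map fun α => α * ((p : ℕ) : ℂ) ^ (cc w τ)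

/-- the twisted Euler factors -/
noncomputable def shiftB (w : ℤ) (τ : ℝ) (B : Nat.Primes → ℂ[X]) (p : Nat.Primes) : ℂ[X] :=
  (B p).comp (C (((p : ℕ) : ℂ) ^ (cc w τ)) * X)

theorem shift_point (w : ℤ) (τ : ℝ) (p : Nat.Primes) (z : ℂ) :
    ((p : ℕ) : ℂ) ^ (cc w τ) * ((p : ℕ) : ℂ) ^ (-((nn w : ℂ) / 2 + 1 + z)) =
      ((p : ℕ) : ℂ) ^ (-(edge w τ + z)) := by
  have hpc : ((p : ℕ) : ℂ) ≠ 0 := by exact_mod_cast p.2.ne_zero
  rw [← Complex.cpow_add _ _ hpc]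
  congr 1
  unfold cc edge
  rw [nn_complex]
  ring

theorem shift_eval (w : ℤ) (τ : ℝ) (B : Nat.Primes → ℂ[X]) (p : Nat.Primes) (z : ℂ) :
    (shiftB w τ B p).eval (((p : ℕ) : ℂ) ^ (-((nn w : ℂ) / 2 + 1 + z))) =
      (B p).eval (((p : ℕ) : ℂ) ^ (-(edge w τ + z))) := by
  unfold shiftB
  rw [eval_comp, eval_mul, eval_C, eval_X, shift_point]

theorem shift_LFun (w : ℤ) (τ : ℝ) (B : Nat.Primes → ℂ[X]) (z : ℂ) :
    LFun (shiftB w τ B) ((nn w : ℂ) / 2 + 1 + z) = LFun B (edge w τ + z) := by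
  unfold LFun
  exact tprod_congr fun p => by rw [shift_eval]

theorem shift_IsEuler {w : ℤ} {δ : Nat.Primes → Multiset ℂ} {B : Nat.Primes → ℂ[X]}
    (h : IsEuler w δ B) (τ : ℝ) :
    Pool.Agent.Y149.PK.IsEuler (nn w) (shiftD w τ δ) (shiftB w τ B) := by
  refine ⟨h.1.mono fun p hp z => ?_, fun p => ?_⟩
  · unfold shiftB shiftD
    rw [eval_comp, eval_mul, eval_C, eval_X, hp, Multiset.map_map]
    congr 1
    refine Multiset.map_congr rfl fun α _ => ?_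
    simp only [Function.comp_apply]
    ring
  · have h1 := shift_eval w τ B p 0
    rw [add_zero, add_zero] at h1
    rw [h1]
    exact h.2 p τ

theorem shift_size (w : ℤ) (τ : ℝ) (B : Nat.Primes → ℂ[X]) (ε : ℝ) :
    Pool.Agent.Y149.PK.size (nn w) (shiftB w τ B) ε = size w B τ ε := by
  unfold Pool.Agent.Y149.PK.size size
  rw [shift_LFun]

theorem shift_order {w : ℤ} {τ : ℝ} {B : Nat.Primes → ℂ[X]} {r : ℤ} (h : HasOrder w B τ r) :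
    Pool.Agent.Y149.PK.HasOrder (nn w) (shiftB w τ B) r := by
  obtain ⟨a, ha, hlim⟩ := h
  refine ⟨a, ha, hlim.congr fun ε => ?_⟩
  rw [shift_LFun]

theorem sqrt_pow_nn (w : ℤ) (p : Nat.Primes) :
    Real.sqrt (p : ℕ) ^ (nn w) = ((p : ℕ) : ℝ) ^ ((w : ℝ) / 2) * ((p : ℕ) : ℝ) ^ ((w.natAbs : ℕ) : ℝ) := by
  have hp0 : (0 : ℝ) < (p : ℕ) := by exact_mod_cast p.2.pos
  rw [Real.sqrt_eq_rpow, ← Real.rpow_natCast, ← Real.rpow_mul hp0.le, ← Real.rpow_add hp0, nn_real]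
  congr 1
  ring

theorem norm_cc (w : ℤ) (τ : ℝ) (p : Nat.Primes) :
    ‖((p : ℕ) : ℂ) ^ (cc w τ)‖ = ((p : ℕ) : ℝ) ^ ((w.natAbs : ℕ) : ℝ) := by
  rw [Complex.norm_natCast_cpow_of_pos p.2.pos]
  congr 1
  unfold cc
  simp

/-- purity -/
def Pure (w : ℤ) (N : ℕ) (p : Nat.Primes) (s : Multiset ℂ) : Prop :=
  (∀ z ∈ s, ‖z‖ = ((p : ℕ) : ℝ) ^ ((w : ℝ) / 2)) ∧ Multiset.card s ≤ N

theorem shift_pure {w : ℤ} {N : ℕ} {δ : Nat.Primes → Multiset ℂ} (τ : ℝ) {p : Nat.Primes}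
    (h : Pure w N p (δ p)) : (∀ z ∈ shiftD w τ δ p, ‖z‖ = Real.sqrt (p : ℕ) ^ (nn w)) ∧
      Multiset.card (shiftD w τ δ p) ≤ N := by
  unfold shiftD
  refine ⟨fun z hz => ?_, ?_⟩
  · obtain ⟨α, hα, rfl⟩ := Multiset.mem_map.1 hz
    rw [norm_mul, h.1 α hα, norm_cc, sqrt_pow_nn]
  · rw [Multiset.card_map]
    exact h.2

theorem cpow_half (w : ℤ) (p : Nat.Primes) :
    ((((p : ℕ) : ℝ) ^ ((w : ℝ) / 2) : ℝ) : ℂ) ≠ 0 := by
  have hp0 : (0 : ℝ) < (p : ℕ) := by exact_mod_cast p.2.pos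
  exact_mod_cast (Real.rpow_pos_of_pos hp0 _).ne'

theorem shift_sum (w : ℤ) (τ : ℝ) (δ : Nat.Primes → Multiset ℂ) (p : Nat.Primes) :
    (shiftD w τ δ p).sum / ((Real.sqrt (p : ℕ) : ℝ) : ℂ) ^ (nn w) =
      (δ p).sum / ((((p : ℕ) : ℝ) ^ ((w : ℝ) / 2) : ℝ) : ℂ) * ((p : ℕ) : ℂ) ^ (-((τ : ℂ) * I)) := by
  have hp0 : (0 : ℝ) < (p : ℕ) := by exact_mod_cast p.2.pos
  have hpc : ((p : ℕ) : ℂ) ≠ 0 := by exact_mod_cast p.2.ne_zero
  have h1 : (shiftD w τ δ p).sum = (δ p).sum * ((p : ℕ) : ℂ) ^ (cc w τ) := by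
    unfold shiftD
    rw [Multiset.sum_map_mul_right, Multiset.map_id']
  have h2 : ((Real.sqrt (p : ℕ) : ℝ) : ℂ) ^ (nn w) =
      ((((p : ℕ) : ℝ) ^ ((w : ℝ) / 2) : ℝ) : ℂ) * ((p : ℕ) : ℂ) ^ ((w.natAbs : ℕ) : ℂ) := by
    rw [← Complex.ofReal_pow, sqrt_pow_nn, Complex.ofReal_mul]
    congr 1
    rw [Real.rpow_natCast, Complex.cpow_natCast]
    push_cast
    rfl
  have h3 : ((p : ℕ) : ℂ) ^ (cc w τ) =
      ((p : ℕ) : ℂ) ^ ((w.natAbs : ℕ) : ℂ) * ((p : ℕ) : ℂ) ^ (-((τ : ℂ) * I)) := by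
    rw [← Complex.cpow_add _ _ hpc]
    congr 1
  have h4 : ((p : ℕ) : ℂ) ^ ((w.natAbs : ℕ) : ℂ) ≠ 0 := by
    rw [Complex.cpow_natCast]
    exact pow_ne_zero _ hpc
  rw [h1, h2, h3]
  have h5 := cpow_half w p
  field_simp

/-- the normalised trace at the pure primes -/
noncomputable def mt (w : ℤ) (N : ℕ) (δ : Nat.Primes → Multiset ℂ) (p : Nat.Primes) : ℂ :=
  open Classical in if Pure w N p (δ p) then
    (δ p).sum / ((((p : ℕ) : ℝ) ^ ((w : ℝ) / 2) : ℝ) : ℂ) else 0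

theorem norm_mt (w : ℤ) (N : ℕ) (δ : Nat.Primes → Multiset ℂ) (p : Nat.Primes) :
    ‖mt w N δ p‖ ≤ N := by
  have hp0 : (0 : ℝ) < (p : ℕ) := by exact_mod_cast p.2.pos
  unfold mt
  split_ifs with h
  · have hs : (0 : ℝ) < ((p : ℕ) : ℝ) ^ ((w : ℝ) / 2) := Real.rpow_pos_of_pos hp0 _
    rw [norm_div, Complex.norm_real, Real.norm_of_nonneg hs.le, div_le_iff₀ hs]
    have h3 := Pool.Agent.Y149.CM.norm_msum (δ p) (fun z => z) (((p : ℕ) : ℝ) ^ ((w : ℝ) / 2))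
      (fun z hz => (h.1 z hz).le)
    rw [Multiset.map_id'] at h3
    refine h3.trans ?_
    have : (Multiset.card (δ p) : ℝ) ≤ N := by exact_mod_cast h.2
    exact mul_le_mul_of_nonneg_right this hs.le
  · simp

/-- **The size on the line.** -/
theorem line_log {w : ℤ} {N : ℕ} {δ : Nat.Primes → Multiset ℂ} {B : Nat.Primes → ℂ[X]}
    (hB : IsEuler w δ B) (hδ : ∀ᶠ p in cofinite, Pure w N p (δ p)) (τ : ℝ)
    {φ : Nat.Primes → ℝ} {C0 : ℝ} (hφ : ∀ p, |φ p| ≤ C0) (he : ∀ᶠ p : Nat.Primes in cofinite,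
      φ p = ((δ p).sum / ((((p : ℕ) : ℝ) ^ ((w : ℝ) / 2) : ℝ) : ℂ) *
        ((p : ℕ) : ℂ) ^ (-((τ : ℂ) * I))).re) :
    (∀ᶠ ε : ℝ in 𝓝[>] 0, LFun B (edge w τ + ε) ≠ 0) ∧
    Tendsto (fun ε : ℝ => size w B τ ε - E ε φ / lam ε) (𝓝[>] 0) (𝓝 0) := by
  have h1 := log_gen (shift_IsEuler hB τ) (Mb := N) (hδ.mono fun p hp => shift_pure τ hp) hφ
    (he.mono fun p hp => by rw [shift_sum]; exact hp)
  refine ⟨?_, ?_⟩
  · obtain ⟨C, hC⟩ := h1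
    refine hC.mono fun ε h2 => ?_
    rw [← shift_LFun]
    exact h2.1
  · have h2 := size_sub hφ h1
    exact h2.congr fun ε => by rw [shift_size]

/-- the order is the limit of the size -/
theorem line_order {w : ℤ} {B : Nat.Primes → ℂ[X]} {τ : ℝ} {r : ℤ} (h : HasOrder w B τ r) :
    Tendsto (fun ε : ℝ => size w B τ ε) (𝓝[>] 0) (𝓝 (-r : ℝ)) := by
  have h1 := size_order (r := -r) (by rw [neg_neg]; exact shift_order h)
  rw [Int.cast_neg] at h1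
  exact h1.congr fun ε => shift_size w τ B ε

end Pool.Agent.Y149.TL
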