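import Pool.Agent.Y149.TL.Core
import Pool.Agent.Y149.TL.Greedy

/-! One infinite family of curves for countably many motives. -/

set_option autoImplicit false

open Finset Filter Topology Complex Polynomial

namespace Pool.Agent.Y149.TL

open Pool.Agent.Y149.CM (LFun)
open Pool.Agent.Y149.PK (tens frobE IsEllipticFamily)

theorem tens_bind (s t : Multiset ℂ) : tens s t = s.bind fun a => t.bind fun b => {a * b} := by
  unfold tens
  have e : s ×ˢ t = s.bind fun a => t.map (Prod.mk a) := rfl
  rw [e, Multiset.map_bind]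
  refine congrArg _ (funext fun a => ?_)
  rw [Multiset.map_map, Multiset.bind_singleton]
  rfl

theorem tens_right_comm (s t u : Multiset ℂ) : tens (tens s t) u = tens (tens s u) t := by
  have key : ∀ t u : Multiset ℂ, tens (tens s t) u =
      s.bind fun a => t.bind fun b => u.bind fun c => {a * b * c} := by
    intro t u
    rw [tens_bind (tens s t) u, tens_bind s t, Multiset.bind_assoc]
    refine congrArg _ (funext fun a => ?_)
    rw [Multiset.bind_assoc]
    refine congrArg _ (funext fun b => ?_)
    rw [Multiset.singleton_bind]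
  rw [key, key]
  refine congrArg _ (funext fun a => ?_)
  rw [Multiset.bind_bind]
  refine congrArg _ (funext fun b => ?_)
  refine congrArg _ (funext fun c => ?_)
  rw [mul_right_comm]

section
variable {ι : Type}

theorem tensL_perm (β : Multiset ℂ) (γ : ι → Multiset ℂ) {l l' : List ι} (h : l.Perm l') :
    tensL β γ l = tensL β γ l' := by
  induction h with
  | nil => rfl
  | cons x _ ih => rw [tensL, tensL, ih]
  | swap x y l => rw [tensL, tensL, tensL, tensL, tens_right_comm]
  | trans _ _ ih1 ih2 => exact ih1.trans ih2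

theorem factor_perm {H : Motive} {a b : ι → ℤ} {l l' : List ι} (h : l.Perm l')
    {B : Nat.Primes → ℂ[X]} (hB : IsLFactor H a b l B) : IsLFactor H a b l' B := by
  unfold IsLFactor at *
  rw [← h.length_eq]
  have e : (fun p : Nat.Primes => tensL (H.frob p) (fun i => frobE (a i) (b i) p 1) l') =
      fun p : Nat.Primes => tensL (H.frob p) (fun i => frobE (a i) (b i) p 1) l := by
    funext p
    rw [tensL_perm _ _ h]
  rw [e]
  exact hB

variable {M : ℕ} {a b : ι → ℤ}

/-- the members which are bad together with the members of `A` -/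
def Bad (H : Motive) (a b : ι → ℤ) (A : Finset ι) : Set ι :=
  {e | ∃ (B : Nat.Primes → ℂ[X]) (τ : ℝ) (r : ℤ), r ≠ 0 ∧ IsLFactor H a b (e :: A.toList) B ∧
    HasOrder (H.weight + A.card + 1) B τ r}

theorem bad_finite (h : IsEllipticFamily M a b) (H : Motive) (A : Finset ι) :
    (Bad H a b A).Finite := by
  classical
  by_contra hinf
  set K : ℕ := 2 * M * (H.rank * 2 ^ A.card) ^ 2 with hK
  obtain ⟨S, hS1, hS2⟩ := Set.Infinite.exists_subset_card_eq hinf (K + 1)
  have hch : ∀ e : ι, ∃ (B : Nat.Primes → ℂ[X]) (τ : ℝ) (r : ℤ), e ∈ S → r ≠ 0 ∧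
      IsLFactor H a b (e :: A.toList) B ∧ HasOrder (H.weight + A.card + 1) B τ r := by
    intro e
    by_cases he : e ∈ S
    · obtain ⟨B, τ, r, h1⟩ := hS1 he
      exact ⟨B, τ, r, fun _ => h1⟩
    · exact ⟨fun _ => 0, 0, 0, fun h' => absurd h' he⟩
  choose B τ r hB using hch
  have hlen : (A.toList.length : ℤ) = A.card := by rw [Finset.length_toList]
  have h1 := tensL_eventually (w := H.weight) (N := H.rank) h H.Pure A.toList
  rw [Finset.length_toList] at h1
  have h2 := one_order h h1 (S.image fun e => (e, τ e)) (B := fun x => B x.1)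
    (fun x hx => by
      obtain ⟨e, he, rfl⟩ := Finset.mem_image.1 hx
      have h3 := (hB e he).2.1
      unfold IsLFactor at h3
      rw [List.length_cons, Finset.length_toList] at h3
      have e1 : H.weight + ((A.card + 1 : ℕ) : ℤ) = H.weight + A.card + 1 := by
        push_cast
        ring
      rw [e1] at h3
      exact h3) (r := fun x => r x.1) (fun x hx => by
      obtain ⟨e, he, rfl⟩ := Finset.mem_image.1 hx
      exact (hB e he).2.2)
  rw [Finset.sum_image (fun x _ y _ hxy => congrArg Prod.fst hxy)] at h2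
  have h3 : (S.card : ℤ) ≤ ∑ e ∈ S, r e ^ 2 := by
    rw [Finset.card_eq_sum_ones, Nat.cast_sum]
    refine Finset.sum_le_sum fun e he => ?_
    have h4 := (hB e he).1
    have h5 : (1 : ℤ) ≤ r e ^ 2 := by
      have := pow_pos (abs_pos.2 h4) 2
      rw [sq_abs] at this
      exact this
    exact_mod_cast h5
  have h4 := h3.trans h2
  rw [hS2] at h4
  have h5 : ((K + 1 : ℕ) : ℤ) ≤ (K : ℤ) := by
    refine h4.trans (le_of_eq ?_)
    rw [hK]
    push_cast
    ring
  omega

/-- **One infinite family for countably many motives.** -/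
theorem universal [Infinite ι] (h : IsEllipticFamily M a b) (H : ℕ → Motive) :
    ∃ 𝒥 : Set ι, 𝒥.Infinite ∧ ∀ j, ∃ F : Finset ι, (∀ x ∈ F, x ∈ 𝒥) ∧
      ∀ (k : ℕ) (l : Fin k → ι), Function.Injective l → (∀ i, l i ∈ 𝒥) → (∃ i, l i ∉ F) →
      ∀ B : Nat.Primes → ℂ[X], IsLFactor (H j) a b (List.ofFn l) B →
      ∀ (τ : ℝ) (r : ℤ), HasOrder ((H j).weight + k) B τ r → r = 0 := by
  classical
  obtain ⟨𝒥, hinf, h1⟩ := greedy (Bad := fun j A => Bad (H j) a b A) fun j A => bad_finite h (H j) A
  refine ⟨𝒥, hinf, fun j => ?_⟩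
  obtain ⟨F, hF, h2⟩ := h1 j
  refine ⟨F, hF, fun k l hl hmem hex B hB τ r hr => ?_⟩
  set A : Finset ι := Finset.univ.image l with hA
  obtain ⟨e, he, hbad⟩ := h2 A (fun x hx => by
    obtain ⟨i, _, rfl⟩ := Finset.mem_image.1 hx
    exact hmem i) (by
    obtain ⟨i, hi⟩ := hex
    exact ⟨l i, Finset.mem_image_of_mem l (Finset.mem_univ i), hi⟩)
  have hperm : (List.ofFn l).Perm (e :: (A.erase e).toList) := by
    have g1 : A.toList.Perm (e :: (A.erase e).toList) := by
      conv_lhs => rw [← Finset.insert_erase he]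
      exact Finset.toList_insert (Finset.notMem_erase e A)
    refine List.Perm.trans ?_ g1
    rw [List.perm_ext_iff_of_nodup (List.nodup_ofFn.2 hl) (Finset.nodup_toList _)]
    intro x
    rw [Finset.mem_toList, List.mem_ofFn, hA, Finset.mem_image]
    simp
  have hcard : (A.erase e).card + 1 = k := by
    have g1 := hperm.length_eq
    rw [List.length_ofFn, List.length_cons, Finset.length_toList] at g1
    exact g1.symm
  by_contra hr0
  refine hbad ⟨B, τ, r, hr0, factor_perm hperm hB, ?_⟩
  have e1 : (H j).weight + ((A.erase e).card : ℤ) + 1 = (H j).weight + k := by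
    rw [← hcard]
    push_cast
    ring
  rw [e1]
  exact hr

end

end Pool.Agent.Y149.TL
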