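import Pool.Agent.Y149.TL.Greedy
import Pool.Agent.Y149.PK.Fin

/-! One infinite subfamily for countably many varieties. -/

set_option autoImplicit false

open Finset Filter Topology Complex Polynomial

namespace Pool.Agent.Y149.TL

open Pool.Agent.H341R2 (E lam lam_tendsto)
open Pool.Agent.Y149.PK

section
variable {ι : Type} {R : ι → ι → Prop} {M : ℕ} {T : ι → ℕ → Nat.Primes → ℝ} {τ : ι → ℕ → ℤ}
  {N t v : ℕ → ℝ} {Z : ℕ → ℕ → Nat.Primes → ℝ} {N0 : ℕ → ℕ → ℝ} {r : ℕ → List ι → ℕ → ℤ}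

/-- all orders are the expected ones -/
def Exp (r : List ι → ℕ → ℤ) (τ : ι → ℕ → ℤ) (l : List ι) : Prop :=
  ∀ n, r l n = QQ (r []) τ l n

/-- **One infinite subfamily for countably many varieties.** -/
theorem fam_universal [Infinite ι] (h : Fam R M T (fun e c => (τ e c : ℝ)) N t v)
    (hZ : ∀ j n p, |Z j n p| ≤ N0 j n)
    (hr : ∀ j l n, Tendsto (fun ε => E ε (PP (Z j) T l n) / lam ε) (𝓝[>] 0) (𝓝 (r j l n : ℝ)))
    {d₀ : ℕ → ℕ} {d : ℕ} (h0 : ∀ j c, d₀ j < c → N0 j c = 0) (h1 : ∀ c, d < c → N c = 0)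
    (hz0 : ∀ j c, d₀ j < c → r j [] c = 0) (hτ0 : ∀ e c, d < c → τ e c = 0) :
    ∃ 𝒥 : Set ι, 𝒥.Infinite ∧ ∀ j, ∃ F : Finset ι, (∀ x ∈ F, x ∈ 𝒥) ∧
      ∀ (k : ℕ) (l : Fin k → ι), Function.Injective l → (∀ i, l i ∈ 𝒥 ∧ l i ∉ F) →
      ∀ n, r j (List.ofFn l) n = QQ (r j []) τ (List.ofFn l) n := by
  classical
  set Bad : ℕ → Finset ι → Set ι := fun j A =>
    {e | Exp (r j) τ A.toList ∧ ¬ Exp (r j) τ (e :: A.toList)} with hBad
  have hperm : ∀ j (l l' : List ι), l.Perm l' → ∀ n, r j l n = r j l' n := by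
    intro j l l' hp n
    have g1 := hr j l n
    rw [PP_perm (Z j) T hp] at g1
    exact_mod_cast tendsto_nhds_unique g1 (hr j l' n)
  have hbig : ∀ j (l : List ι) n, d₀ j + l.length * d < n → r j l n = QQ (r j []) τ l n := by
    intro j l n hn
    rw [QQ_zero (hz0 j) hτ0 _ _ hn]
    have h5 : PP (Z j) T l n = fun _ => 0 := by
      funext p
      have h6 := PP_le h.bd (hZ j) l n p
      rw [bnd_zero (h0 j) h1 _ _ hn] at h6
      exact abs_nonpos_iff.1 h6
    have h6 := hr j l n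
    rw [h5] at h6
    have h7 : (fun ε : ℝ => E ε (fun _ => 0) / lam ε) = fun _ => 0 := by
      funext ε
      unfold E
      simp
    rw [h7] at h6
    have h8 := tendsto_nhds_unique h6 tendsto_const_nhds
    exact_mod_cast h8
  have hfin : ∀ j A, (Bad j A).Finite := by
    intro j A
    by_cases hA : Exp (r j) τ A.toList
    · have h2 : (⋃ n ∈ (Finset.range (d₀ j + (A.card + 1) * d + 1) : Set ℕ),
          {e | r j (e :: A.toList) n ≠ QQ (r j []) τ (e :: A.toList) n}).Finite := by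
        refine Set.Finite.biUnion (Finset.finite_toSet _) fun n _ => ?_
        exact h.step (hZ j) (hr j) hA n
      refine h2.subset fun e he => ?_
      obtain ⟨-, h3⟩ := he
      unfold Exp at h3
      push Not at h3
      obtain ⟨n, hn⟩ := h3
      simp only [Set.mem_iUnion]
      refine ⟨n, ?_, hn⟩
      rw [Finset.mem_coe, Finset.mem_range]
      by_contra h4
      apply hn
      refine hbig j _ n ?_
      rw [List.length_cons, Finset.length_toList]
      omega
    · refine Set.finite_empty.subset fun e he => ?_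
      exact absurd he.1 hA
  obtain ⟨𝒥, hinf, h2⟩ := greedy hfin
  refine ⟨𝒥, hinf, fun j => ?_⟩
  obtain ⟨F, hF, h3⟩ := h2 j
  refine ⟨F, hF, ?_⟩
  have key : ∀ (k : ℕ) (A : Finset ι), A.card = k → (∀ x ∈ A, x ∈ 𝒥 ∧ x ∉ F) →
      Exp (r j) τ A.toList := by
    intro k
    induction k with
    | zero =>
      intro A hA _
      rw [Finset.card_eq_zero.1 hA, Finset.toList_empty]
      intro n
      rw [QQ]
    | succ k ih =>
      intro A hA hmem
      have hne : A.Nonempty := Finset.card_pos.1 (by omega)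
      obtain ⟨x, hx⟩ := hne
      obtain ⟨e, he, hbad⟩ := h3 A (fun x hx => (hmem x hx).1) ⟨x, hx, (hmem x hx).2⟩
      have h4 := ih (A.erase e) (by rw [Finset.card_erase_of_mem he, hA]; rfl)
        fun x hx => hmem x (Finset.mem_of_mem_erase hx)
      have h5 : Exp (r j) τ (e :: (A.erase e).toList) := by
        by_contra h5
        exact hbad ⟨h4, h5⟩
      have g1 : A.toList.Perm (e :: (A.erase e).toList) := by
        conv_lhs => rw [← Finset.insert_erase he]
        exact Finset.toList_insert (Finset.notMem_erase e A)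
      intro n
      rw [hperm j _ _ g1, QQ_perm _ τ g1]
      exact h5 n
  intro k l hl hmem n
  set A : Finset ι := Finset.univ.image l with hA
  have g2 : A.toList.Perm (List.ofFn l) := by
    rw [List.perm_ext_iff_of_nodup (Finset.nodup_toList _) (List.nodup_ofFn.2 hl)]
    intro x
    rw [Finset.mem_toList, List.mem_ofFn, hA, Finset.mem_image]
    simp
  rw [← hperm j _ _ g2, ← QQ_perm _ τ g2]
  refine key _ A rfl (fun x hx => ?_) n
  obtain ⟨i, _, rfl⟩ := Finset.mem_image.1 hx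
  exact hmem i

end

section
variable {ι : Type} {M : ℕ} {a b : ι → ℤ}

theorem betti_real (X : Variety) {c : ℕ} (hc : 2 * X.dim < c) : ((X.betti c : ℕ) : ℝ) = 0 := by
  rw [X.betti_zero hc]
  simp

theorem base_zero {X : Variety} {T : ι → ℕ → Nat.Primes → ℝ} {r : List ι → ℕ → ℤ}
    (hlim : ∀ l n, Tendsto (fun ε => E ε (PP (ZZ X.betti X.frob) T l n) / lam ε) (𝓝[>] 0)
      (𝓝 (r l n : ℝ))) {c : ℕ} (hc : 2 * X.dim < c) : r [] c = 0 := by
  have h1 := hlim [] c
  have h2 : PP (ZZ X.betti X.frob) T ([] : List ι) c = fun _ => 0 := by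
    funext p
    have h3 := ZZ_le X.betti X.frob c p
    rw [betti_real X hc] at h3
    exact abs_nonpos_iff.1 h3
  rw [h2] at h1
  simp only [E_zero, zero_div] at h1
  exact_mod_cast tendsto_nhds_unique h1 tendsto_const_nhds

/-- **Elliptic curves: one infinite subfamily for all varieties.** -/
theorem ell_universal [Infinite ι] (h : IsEllipticFamily M a b) (X : ℕ → Variety)
    {B : ℕ → List ι → ℕ → Nat.Primes → ℂ[X]} (hB : ∀ j, IsEllSystem (X j) a b (B j))
    {r : ℕ → List ι → ℕ → ℤ} (hr : ∀ j l n, HasOrder n (B j l n) (-(r j l n))) :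
    ∃ 𝒥 : Set ι, 𝒥.Infinite ∧ ∀ j, ∃ F : Finset ι, (∀ x ∈ F, x ∈ 𝒥) ∧
      ∀ (k : ℕ) (l : Fin k → ι), Function.Injective l → (∀ i, l i ∈ 𝒥 ∧ l i ∉ F) →
      ∀ n, r j (List.ofFn l) n = evenPart (r j []) k n := by
  obtain ⟨Nf, hN, f, hf⟩ := ell_choose h
  have hfam := fam_ell hf h.mult
  rw [← tZ_cast] at hfam
  have hlim : ∀ j l n, Tendsto (fun ε => E ε (PP (ZZ (X j).betti (X j).frob)
      (fun i => TE (f i)) l n) / lam ε) (𝓝[>] 0) (𝓝 (r j l n : ℝ)) := by
    intro j l n
    have h1 := size_sub (fun p => PP_le hfam.bd (ZZ_le (X j).betti (X j).frob) l n p)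
      (link_prod (X j).VG (γ := fun i p => frobE (a i) (b i) p)
        (fun i => (ell_local hf h.disc i).1) (fun i => (ell_local hf h.disc i).2) hfam.bd l
        (hB j l n))
    have h2 := (size_order (hr j l n)).sub h1
    rw [sub_zero] at h2
    exact h2.congr fun ε => by ring
  obtain ⟨𝒥, hJ1, hJ2⟩ := fam_universal hfam (τ := fun _ => tZ)
    (fun j => ZZ_le (X j).betti (X j).frob) hlim (d₀ := fun j => 2 * (X j).dim) (d := 2)
    (fun j c hc => betti_real (X j) hc) (fun c hc => by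
      unfold bE
      rw [Nat.choose_eq_zero_of_lt hc]
      simp) (fun j c hc => base_zero (hlim j) hc) (fun _ c hc => by
      unfold tZ
      rw [if_neg (by omega)])
  refine ⟨𝒥, hJ1, fun j => ?_⟩
  obtain ⟨F, hF, h2⟩ := hJ2 j
  refine ⟨F, hF, fun k l h1 h3 n => ?_⟩
  rw [h2 k l h1 h3 n, QQ_tZ, List.length_ofFn]

/-- **General families: one infinite subfamily for all varieties.** -/
theorem gen_universal [Infinite ι] {Y : ι → Variety} {N : ℕ → ℕ} {τ : ι → ℕ → ℤ}
    (h : IsPairFamily Y N M τ) (X : ℕ → Variety)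
    {B : ℕ → List ι → ℕ → Nat.Primes → ℂ[X]} (hB : ∀ j, IsSystem (X j) Y (B j))
    {r : ℕ → List ι → ℕ → ℤ} (hr : ∀ j l n, HasOrder n (B j l n) (-(r j l n))) :
    ∃ 𝒥 : Set ι, 𝒥.Infinite ∧ ∀ j, ∃ F : Finset ι, (∀ x ∈ F, x ∈ 𝒥) ∧
      ∀ (k : ℕ) (l : Fin k → ι), Function.Injective l → (∀ i, l i ∈ 𝒥 ∧ l i ∉ F) →
      ∀ n, r j (List.ofFn l) n = QQ (r j []) τ (List.ofFn l) n := by
  classical
  obtain ⟨R, B₁, B₂, hsymm, hM, h₁, hτ, h₂, hτ₂⟩ := pair_fam h
  have hfam := gen_fam h.betti_le hsymm hM h₁ hτ h₂ hτ₂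
  obtain ⟨d, hd⟩ := h.bounded
  have hlim : ∀ j l n, Tendsto (fun ε => E ε (PP (ZZ (X j).betti (X j).frob)
      (TG N fun e => (Y e).frob) l n) / lam ε) (𝓝[>] 0) (𝓝 (r j l n : ℝ)) := by
    intro j l n
    have h1 := size_sub (fun p => PP_le hfam.bd (ZZ_le (X j).betti (X j).frob) l n p)
      (link_prod (X j).VG (γ := fun e p => (Y e).frob p)
        (fun e => ((Y e).GG (h.betti_le e)).mono fun p hp => hp.1)
        (fun e => ((Y e).GG (h.betti_le e)).mono fun p hp c => TG_eq hp c) hfam.bd l (hB j l n))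
    have h2 := (size_order (hr j l n)).sub h1
    rw [sub_zero] at h2
    exact h2.congr fun ε => by ring
  have hτ0 : ∀ e c, d < c → τ e c = 0 := by
    intro e c hc
    have h1 := hfam.tb e c
    rw [hd c hc] at h1
    simp at h1
    exact h1
  exact fam_universal hfam (fun j => ZZ_le (X j).betti (X j).frob) hlim
    (d₀ := fun j => 2 * (X j).dim) (d := d) (fun j c hc => betti_real (X j) hc)
    (fun c hc => by rw [hd c hc]; simp) (fun j c hc => base_zero (hlim j) hc) hτ0

end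

end Pool.Agent.Y149.TL
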